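import Pool.Agent.W5h46.HL.Main
import Pool.Agent.W5h46.MT.Cont

/-!
# Lerch and Hurwitz zeta values as functions of the parameter
-/

set_option autoImplicit false

open MeasureTheory Set Filter Topology Asymptotics

namespace Pool.Agent.W5h46.HL

open Pool.Agent.W5h46.MT

/-- `1 / (1 - c t)` on `(0, 1]` -/
noncomputable def fc (c : ℂ) : ℝ → ℂ := indicator (Ioc 0 1) fun t : ℝ => (1 - c * t)⁻¹

theorem fc_locInt {c : ℂ} (hc : ∀ t : ℝ, t ∈ Icc (0 : ℝ) 1 → 1 - c * t ≠ 0) : LocallyIntegrableOn (fc c) (Ioi 0) := by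
  have h1 : Integrable (fc c) := by
    have h2 : IntegrableOn (fun t : ℝ => (1 - c * t)⁻¹) (Ioc 0 1) := by
      have h3 : ContinuousOn (fun t : ℝ => (1 - c * t)⁻¹) (Icc 0 1) := by
        refine ContinuousOn.inv₀ (by fun_prop) fun t ht => hc t ht
      exact (h3.integrableOn_Icc (μ := volume)).mono_set Ioc_subset_Icc_self
    exact h2.integrable_indicator measurableSet_Ioc
  exact h1.locallyIntegrable.locallyIntegrableOn _

theorem fc_top (c : ℂ) (a : ℝ) : fc c =O[atTop] fun t : ℝ => t ^ (-a) := by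
  refine IsBigO.of_bound 0 ?_
  filter_upwards [eventually_gt_atTop (1 : ℝ)] with t ht
  have : fc c t = 0 := indicator_of_notMem (fun h => absurd h.2 (not_le.2 ht)) _
  rw [this]
  simp

theorem fc_bot {c : ℂ} (hc : ∀ t : ℝ, t ∈ Icc (0 : ℝ) 1 → 1 - c * t ≠ 0) :
    fc c =O[𝓝[>] 0] fun t : ℝ => t ^ (-(0 : ℝ)) := by
  have h3 : ContinuousOn (fun t : ℝ => (1 - c * t)⁻¹) (Icc 0 1) :=
    ContinuousOn.inv₀ (by fun_prop) fun t ht => hc t ht
  obtain ⟨B, hB⟩ := isCompact_Icc.exists_bound_of_continuousOn h3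
  refine IsBigO.of_bound B ?_
  filter_upwards [Ioo_mem_nhdsGT (zero_lt_one' ℝ)] with t ht
  have : fc c t = (1 - c * t)⁻¹ := indicator_of_mem (show t ∈ Ioc (0 : ℝ) 1 from ⟨ht.1, ht.2.le⟩) _
  rw [this]
  simpa using hB t ⟨ht.1.le, ht.2.le⟩

theorem fc_an {c : ℂ} (hc : ∀ t : ℝ, t ∈ Icc (0 : ℝ) 1 → 1 - c * t ≠ 0) (k : ℕ) {x : ℂ} (hx : 0 < x.re) :
    AnalyticAt ℂ (mellin (lf k (fc c))) x := by
  have hopen : IsOpen {z : ℂ | 0 < z.re} := isOpen_lt continuous_const Complex.continuous_re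
  have hd : DifferentiableOn ℂ (mellin (lf k (fc c))) {z : ℂ | 0 < z.re} := by
    intro z hz
    exact (lf_deriv (a := z.re + 1) (b := 0) (fc_locInt hc) (fc_top c _) (fc_bot hc) k hz
      (by linarith)).2.differentiableAt.differentiableWithinAt
  exact hd.analyticAt (hopen.mem_nhds hx)

theorem fc_diff {c : ℂ} (hc : ∀ t : ℝ, t ∈ Icc (0 : ℝ) 1 → 1 - c * t ≠ 0) (k : ℕ) {x : ℂ} (hx : 0 < x.re) :
    c * mellin (lf k (fc c)) (x + 1) =
      mellin (lf k (fc c)) x - (-1) ^ k * k.factorial * (x ^ (k + 1))⁻¹ := by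
  have h1 : MellinConvergent (lf k (fc c)) x :=
    (lf_deriv (a := x.re + 1) (b := 0) (fc_locInt hc) (fc_top c _) (fc_bot hc) k hx (by linarith)).1
  have h2 : MellinConvergent (lf k (fc c)) (x + 1) :=
    (lf_deriv (a := x.re + 2) (b := 0) (fc_locInt hc) (fc_top c _) (fc_bot hc) k
      (by rw [Complex.add_re, Complex.one_re]; linarith) (by rw [Complex.add_re, Complex.one_re]; linarith)).1
  have h3 : MellinConvergent (fun t => c • ((t : ℂ) ^ (1 : ℂ) • lf k (fc c) t)) x :=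
    (MellinConvergent.cpow_smul.2 h2).const_smul c
  have h4 := (hasMellin_sub h1 h3).2
  rw [mellin_const_smul, mellin_cpow_smul] at h4
  have h5 : (fun t => lf k (fc c) t - c • ((t : ℂ) ^ (1 : ℂ) • lf k (fc c) t)) = lf k (pw 0) := by
    funext t
    simp only [lf, fc, pw, Complex.cpow_one, smul_eq_mul]
    by_cases ht : t ∈ Ioc (0 : ℝ) 1
    · rw [indicator_of_mem ht, indicator_of_mem ht]
      have h6 := hc t ⟨ht.1.le, ht.2⟩
      simp only [Nat.cast_zero, Complex.cpow_zero]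
      field_simp
    · rw [indicator_of_notMem ht, indicator_of_notMem ht]
      ring
  rw [h5, pw_mellin 0 k x (by simpa using hx)] at h4
  rw [smul_eq_mul] at h4
  simp only [Nat.cast_zero, add_zero] at h4
  rw [div_eq_mul_inv] at h4
  linear_combination h4

/-- Hurwitz zeta values -/
noncomputable def hz (k : ℕ) (x : ℂ) : ℂ := ∑' n : ℕ, 1 / ((n : ℂ) + x) ^ (k + 1)

theorem hz_bound {δ : ℝ} (hδ : 0 < δ) {k : ℕ} (n : ℕ) {x : ℂ} (hx : δ < x.re) :
    ‖1 / ((n : ℂ) + x) ^ (k + 1)‖ ≤ 1 / |(n : ℝ) + δ| ^ ((k : ℝ) + 1) := by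
  have hn : (0 : ℝ) ≤ n := Nat.cast_nonneg n
  have h1 : (n : ℝ) + δ ≤ ‖(n : ℂ) + x‖ := by
    refine le_trans ?_ (Complex.re_le_norm _)
    rw [Complex.add_re, Complex.natCast_re]
    linarith
  rw [norm_div, norm_one, norm_pow, abs_of_pos (by linarith)]
  have h2 : ((n : ℝ) + δ) ^ ((k : ℝ) + 1) = ((n : ℝ) + δ) ^ (k + 1) := by
    rw [← Real.rpow_natCast]
    push_cast
    rfl
  rw [h2]
  exact one_div_le_one_div_of_le (by positivity) (pow_le_pow_left₀ (by positivity) h1 _)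

theorem hz_summable {k : ℕ} (hk : 1 ≤ k) {x : ℂ} (hx : 0 < x.re) :
    Summable fun n : ℕ => 1 / ((n : ℂ) + x) ^ (k + 1) := by
  have h1 : Summable fun n : ℕ => 1 / |(n : ℝ) + x.re / 2| ^ ((k : ℝ) + 1) :=
    (Real.summable_one_div_nat_add_rpow (x.re / 2) _).2 (by
      have : (1 : ℝ) ≤ k := by exact_mod_cast hk
      linarith)
  exact Summable.of_norm_bounded h1 fun n => hz_bound (by linarith) n (by linarith)

theorem hz_an {k : ℕ} (hk : 1 ≤ k) {x : ℂ} (hx : 0 < x.re) : AnalyticAt ℂ (hz k) x := by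
  have hδ : 0 < x.re / 2 := by linarith
  have hopen : IsOpen {z : ℂ | x.re / 2 < z.re} := isOpen_lt continuous_const Complex.continuous_re
  have h1 : Summable fun n : ℕ => 1 / |(n : ℝ) + x.re / 2| ^ ((k : ℝ) + 1) :=
    (Real.summable_one_div_nat_add_rpow (x.re / 2) _).2 (by
      have : (1 : ℝ) ≤ k := by exact_mod_cast hk
      linarith)
  have hd : DifferentiableOn ℂ (hz k) {z : ℂ | x.re / 2 < z.re} := by
    refine Complex.differentiableOn_tsum_of_summable_norm h1 (fun n => ?_) hopen fun n w hw => hz_bound hδ n hw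
    intro w hw
    refine DifferentiableAt.differentiableWithinAt ?_
    refine DifferentiableAt.div (differentiableAt_const _) (by fun_prop) (pow_ne_zero _ ?_)
    intro h
    have h2 := congrArg Complex.re h
    rw [Complex.add_re, Complex.natCast_re, Complex.zero_re] at h2
    have hn : (0 : ℝ) ≤ n := Nat.cast_nonneg n
    have h3 : x.re / 2 < w.re := hw
    linarith
  exact hd.analyticAt (hopen.mem_nhds (show x.re / 2 < x.re by linarith))

theorem hz_diff {k : ℕ} (hk : 1 ≤ k) {x : ℂ} (hx : 0 < x.re) : hz k (x + 1) = hz k x - 1 * (x ^ (k + 1))⁻¹ := by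
  have h1 := (hz_summable hk hx).tsum_eq_zero_add
  simp only [hz]
  rw [h1]
  have h2 : ∀ n : ℕ, 1 / (((n + 1 : ℕ) : ℂ) + x) ^ (k + 1) = 1 / ((n : ℂ) + (x + 1)) ^ (k + 1) := by
    intro n
    push_cast
    ring_nf
  simp only [h2]
  simp

/-- the digamma function with Euler's constant -/
noncomputable def dgm (x : ℂ) : ℂ := Complex.digamma x + Real.eulerMascheroniConstant

theorem ne_neg {x : ℂ} (hx : 0 < x.re) (m : ℕ) : x ≠ -m := by
  intro h
  have h2 := congrArg Complex.re h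
  rw [Complex.neg_re, Complex.natCast_re] at h2
  have hn : (0 : ℝ) ≤ m := Nat.cast_nonneg m
  linarith

theorem dgm_diff {x : ℂ} (hx : 0 < x.re) : dgm (x + 1) = dgm x - (-1) * (x ^ (0 + 1))⁻¹ := by
  rw [dgm, dgm, Complex.digamma_apply_add_one x (ne_neg hx)]
  ring

theorem dgm_an {x : ℂ} (hx : 0 < x.re) : AnalyticAt ℂ dgm x := by
  have hopen : IsOpen {z : ℂ | 0 < z.re} := isOpen_lt continuous_const Complex.continuous_re
  have hG : DifferentiableOn ℂ Complex.Gamma {z : ℂ | 0 < z.re} := fun z hz =>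
    (Complex.differentiableAt_Gamma z (ne_neg hz)).differentiableWithinAt
  have hGa : AnalyticAt ℂ Complex.Gamma x := hG.analyticAt (hopen.mem_nhds hx)
  have h1 : AnalyticAt ℂ (fun z => deriv Complex.Gamma z / Complex.Gamma z) x :=
    hGa.deriv.div hGa (Complex.Gamma_ne_zero (ne_neg hx))
  have h2 : dgm = fun z => deriv Complex.Gamma z / Complex.Gamma z + (Real.eulerMascheroniConstant : ℂ) := by
    funext z
    rw [dgm, Complex.digamma_def, logDeriv_apply]
  rw [h2]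
  exact h1.add analyticAt_const

end Pool.Agent.W5h46.HL
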