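import Mathlib

/-!
# Polynomials under a semilinear affine substitution: the top degree part
-/

set_option autoImplicit false
set_option linter.unusedSectionVars false

open MvPolynomial Finset

namespace Pool.Agent.W5h46.HL

variable {K : Type} [Field K] {κ : Type} [Fintype κ]

/-- the total degree of an exponent -/
def dg (e : κ →₀ ℕ) : ℕ := ∑ y, e y

theorem dg_add (e f : κ →₀ ℕ) : dg (e + f) = dg e + dg f := by
  simp [dg, Finset.sum_add_distrib]

/-- all monomials have degree less than `n` -/
def LtD (n : ℕ) (R : MvPolynomial κ K) : Prop := ∀ e, coeff e R ≠ 0 → dg e < n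

/-- all monomials have degree at most `n` -/
def LeD (n : ℕ) (R : MvPolynomial κ K) : Prop := ∀ e, coeff e R ≠ 0 → dg e ≤ n

theorem LtD.zero (n : ℕ) : LtD n (0 : MvPolynomial κ K) := fun e he => absurd (coeff_zero e) he

theorem LeD.zero (n : ℕ) : LeD n (0 : MvPolynomial κ K) := fun e he => absurd (coeff_zero e) he

theorem LtD.add {n : ℕ} {A B : MvPolynomial κ K} (hA : LtD n A) (hB : LtD n B) : LtD n (A + B) := by
  intro e he
  rw [coeff_add] at he
  by_cases h : coeff e A = 0
  · rw [h, zero_add] at he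
    exact hB e he
  · exact hA e h

theorem LeD.add {n : ℕ} {A B : MvPolynomial κ K} (hA : LeD n A) (hB : LeD n B) : LeD n (A + B) := by
  intro e he
  rw [coeff_add] at he
  by_cases h : coeff e A = 0
  · rw [h, zero_add] at he
    exact hB e he
  · exact hA e h

theorem LeD.sub {n : ℕ} {A B : MvPolynomial κ K} (hA : LeD n A) (hB : LeD n B) : LeD n (A - B) := by
  intro e he
  rw [coeff_sub] at he
  by_cases h : coeff e A = 0
  · rw [h, zero_sub, neg_ne_zero] at he
    exact hB e he
  · exact hA e h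

theorem LtD.sum {ι : Type*} {n : ℕ} (s : Finset ι) {A : ι → MvPolynomial κ K} (hA : ∀ i ∈ s, LtD n (A i)) :
    LtD n (∑ i ∈ s, A i) := by
  classical
  induction s using Finset.induction_on with
  | empty => simpa using LtD.zero n
  | insert a s ha ih =>
    rw [Finset.sum_insert ha]
    exact (hA a (Finset.mem_insert_self _ _)).add (ih fun i hi => hA i (Finset.mem_insert_of_mem hi))

theorem LeD.sum {ι : Type*} {n : ℕ} (s : Finset ι) {A : ι → MvPolynomial κ K} (hA : ∀ i ∈ s, LeD n (A i)) :
    LeD n (∑ i ∈ s, A i) := by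
  classical
  induction s using Finset.induction_on with
  | empty => simpa using LeD.zero n
  | insert a s ha ih =>
    rw [Finset.sum_insert ha]
    exact (hA a (Finset.mem_insert_self _ _)).add (ih fun i hi => hA i (Finset.mem_insert_of_mem hi))

theorem LeD.mul {m n : ℕ} {A B : MvPolynomial κ K} (hA : LeD m A) (hB : LeD n B) : LeD (m + n) (A * B) := by
  classical
  intro e he
  rw [coeff_mul] at he
  obtain ⟨x, hx, hx0⟩ := Finset.exists_ne_zero_of_sum_ne_zero he
  have h1 := hA x.1 (left_ne_zero_of_mul hx0)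
  have h2 := hB x.2 (right_ne_zero_of_mul hx0)
  rw [← Finset.HasAntidiagonal.mem_antidiagonal.1 hx, dg_add]
  omega

theorem LeD.mul_lt {m n : ℕ} {A B : MvPolynomial κ K} (hA : LeD m A) (hB : LtD n B) : LtD (m + n) (A * B) := by
  classical
  intro e he
  rw [coeff_mul] at he
  obtain ⟨x, hx, hx0⟩ := Finset.exists_ne_zero_of_sum_ne_zero he
  have h1 := hA x.1 (left_ne_zero_of_mul hx0)
  have h2 := hB x.2 (right_ne_zero_of_mul hx0)
  rw [← Finset.HasAntidiagonal.mem_antidiagonal.1 hx, dg_add]
  omega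

theorem LtD.mono {m n : ℕ} (h : m ≤ n) {A : MvPolynomial κ K} (hA : LtD m A) : LtD n A :=
  fun e he => (hA e he).trans_le h

theorem LeD.mono {m n : ℕ} (h : m ≤ n) {A : MvPolynomial κ K} (hA : LeD m A) : LeD n A :=
  fun e he => (hA e he).trans h

theorem LeD_C (a : K) (n : ℕ) : LeD n (C a : MvPolynomial κ K) := by
  classical
  intro e he
  rw [coeff_C] at he
  split_ifs at he with h
  · rw [← h]
    simp [dg]
  · exact absurd rfl he

theorem LeD.C_mul (a : K) {n : ℕ} {A : MvPolynomial κ K} (hA : LeD n A) : LeD n (C a * A) := by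
  intro e he
  rw [coeff_C_mul] at he
  exact hA e (right_ne_zero_of_mul he)

/-- equality up to terms of degree less than `n` -/
structure Cong (n : ℕ) (A B : MvPolynomial κ K) : Prop where
  l : LeD n A
  r : LeD n B
  s : LtD n (A - B)

theorem Cong.mul {m n : ℕ} {A B A' B' : MvPolynomial κ K} (h : Cong m A B) (h' : Cong n A' B') :
    Cong (m + n) (A * A') (B * B') := by
  refine ⟨h.l.mul h'.l, h.r.mul h'.r, ?_⟩
  have h1 : A * A' - B * B' = A * (A' - B') + B' * (A - B) := by ring
  rw [h1]
  refine (h.l.mul_lt h'.s).add ?_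
  rw [add_comm m n]
  exact h'.r.mul_lt h.s

theorem Cong.C (a : K) : Cong 0 (C a : MvPolynomial κ K) (MvPolynomial.C a) :=
  ⟨LeD_C a 0, LeD_C a 0, by rw [sub_self]; exact LtD.zero 0⟩

theorem Cong.pow {A B : MvPolynomial κ K} (h : Cong 1 A B) (k : ℕ) : Cong k (A ^ k) (B ^ k) := by
  induction k with
  | zero =>
    rw [pow_zero, pow_zero]
    have := Cong.C (κ := κ) (1 : K)
    simpa using this
  | succ k ih =>
    rw [pow_succ, pow_succ]
    exact ih.mul h

theorem Cong.prod (s : Finset κ) {A B : κ → MvPolynomial κ K} (h : ∀ y, Cong 1 (A y) (B y)) (m : κ → ℕ) :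
    Cong (∑ y ∈ s, m y) (∏ y ∈ s, A y ^ m y) (∏ y ∈ s, B y ^ m y) := by
  classical
  induction s using Finset.induction_on with
  | empty =>
    have := Cong.C (κ := κ) (1 : K)
    simpa using this
  | insert a s ha ih =>
    rw [Finset.sum_insert ha, Finset.prod_insert ha, Finset.prod_insert ha]
    exact ((h a).pow (m a)).mul ih

/-- the substitution `X_y ↦ M_y (X_y - b_y)`, with `σ` on the coefficients -/
noncomputable def TT (σ : K →+* K) (M b : κ → K) : MvPolynomial κ K →+* MvPolynomial κ K :=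
  eval₂Hom (C.comp σ) (fun y => C (M y) * (X y - C (b y)))

/-- the substitution `X_y ↦ M_y X_y`, with `σ` on the coefficients -/
noncomputable def DD (σ : K →+* K) (M : κ → K) : MvPolynomial κ K →+* MvPolynomial κ K :=
  eval₂Hom (C.comp σ) (fun y => C (M y) * X y)

theorem TT_C (σ : K →+* K) (M b : κ → K) (a : K) : TT σ M b (C a) = C (σ a) := by
  simp [TT]

theorem TT_X (σ : K →+* K) (M b : κ → K) (y : κ) : TT σ M b (X y) = C (M y) * (X y - C (b y)) := by
  simp [TT]

theorem LeD_X (y : κ) : LeD 1 (X y : MvPolynomial κ K) := by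
  classical
  intro e he
  rw [coeff_X] at he
  split_ifs at he with h
  · rw [← h]
    simp only [dg]
    rw [Finset.sum_eq_single y]
    · simp
    · intro z _ hz
      exact Finsupp.single_eq_of_ne hz
    · simp
  · exact absurd rfl he

theorem cong_one (M b : K) (y : κ) : Cong 1 (C M * (X y - C b)) (C M * X y : MvPolynomial κ K) := by
  have h1 : LeD 1 (C M * X y : MvPolynomial κ K) := (LeD_X y).C_mul M
  have h2 : LeD 0 (C (M * b) : MvPolynomial κ K) := LeD_C _ 0
  have h3 : C M * (X y - C b) = C M * X y - (C (M * b) : MvPolynomial κ K) := by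
    rw [C_mul]
    ring
  refine ⟨?_, h1, ?_⟩
  · rw [h3]
    exact h1.sub (h2.mono (Nat.zero_le 1))
  · have h4 : C M * (X y - C b) - C M * X y = (C (-(M * b)) : MvPolynomial κ K) := by
      rw [h3, C_neg]
      ring
    rw [h4]
    intro e he
    exact Nat.lt_succ_of_le (LeD_C (-(M * b)) 0 e he)

theorem cong_TD (σ : K →+* K) (M b : κ → K) {n : ℕ} {P : MvPolynomial κ K} (hP : LeD n P) :
    Cong n (TT σ M b P) (DD σ M P) := by
  classical
  have hmono : ∀ m ∈ P.support, Cong n (TT σ M b (monomial m (coeff m P))) (DD σ M (monomial m (coeff m P))) := by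
    intro m hm
    have h1 : Cong (0 + dg m) (C (σ (coeff m P)) * ∏ y, (C (M y) * (X y - C (b y))) ^ m y)
        (C (σ (coeff m P)) * ∏ y, (C (M y) * X y) ^ m y) :=
      (Cong.C (κ := κ) (σ (coeff m P))).mul (Cong.prod Finset.univ (fun y => cong_one (M y) (b y) y) m)
    have h2 : 0 + dg m ≤ n := by
      rw [zero_add]
      exact hP m (mem_support_iff.1 hm)
    have h3 : TT σ M b (monomial m (coeff m P)) = C (σ (coeff m P)) * ∏ y, (C (M y) * (X y - C (b y))) ^ m y := by
      rw [TT, eval₂Hom_monomial, Finsupp.prod_fintype _ _ (fun _ => pow_zero _)]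
      rfl
    have h4 : DD σ M (monomial m (coeff m P)) = C (σ (coeff m P)) * ∏ y, (C (M y) * X y) ^ m y := by
      rw [DD, eval₂Hom_monomial, Finsupp.prod_fintype _ _ (fun _ => pow_zero _)]
      rfl
    rw [h3, h4]
    exact ⟨h1.l.mono h2, h1.r.mono h2, h1.s.mono h2⟩
  have hP' := P.support_sum_monomial_coeff
  have hT : TT σ M b P = ∑ m ∈ P.support, TT σ M b (monomial m (coeff m P)) := by
    rw [← map_sum, hP']
  have hD : DD σ M P = ∑ m ∈ P.support, DD σ M (monomial m (coeff m P)) := by
    rw [← map_sum, hP']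
  refine ⟨?_, ?_, ?_⟩
  · rw [hT]
    exact LeD.sum _ fun m hm => (hmono m hm).l
  · rw [hD]
    exact LeD.sum _ fun m hm => (hmono m hm).r
  · rw [hT, hD, ← Finset.sum_sub_distrib]
    exact LtD.sum _ fun m hm => (hmono m hm).s

theorem coeff_DD (σ : K →+* K) (M : κ → K) (P : MvPolynomial κ K) (e : κ →₀ ℕ) :
    coeff e (DD σ M P) = σ (coeff e P) * ∏ y, M y ^ e y := by
  classical
  have hP' := P.support_sum_monomial_coeff
  have hmono : ∀ m : κ →₀ ℕ, ∀ c : K, DD σ M (monomial m c) = monomial m (σ c * ∏ y, M y ^ m y) := by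
    intro m c
    rw [DD, eval₂Hom_monomial, Finsupp.prod_fintype _ _ (fun _ => pow_zero _), monomial_eq, C_mul,
      Finsupp.prod_fintype _ _ (fun _ => pow_zero _), map_prod]
    simp only [RingHom.coe_comp, Function.comp_apply, mul_pow, Finset.prod_mul_distrib, map_pow]
    ring
  conv_lhs => rw [← hP', map_sum]
  rw [coeff_sum]
  simp only [hmono, coeff_monomial]
  rw [Finset.sum_ite_eq' P.support e]
  split_ifs with h
  · rfl
  · rw [notMem_support_iff.1 h, map_zero, zero_mul]

theorem coeff_TT (σ : K →+* K) (M b : κ → K) {n : ℕ} {P : MvPolynomial κ K} (hP : LeD n P) {e : κ →₀ ℕ}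
    (he : dg e = n) : coeff e (TT σ M b P) = σ (coeff e P) * ∏ y, M y ^ e y := by
  have h1 := cong_TD σ M b hP
  rw [← coeff_DD]
  by_contra h
  have h2 : coeff e (TT σ M b P - DD σ M P) ≠ 0 := by
    rw [coeff_sub]
    exact sub_ne_zero.2 h
  exact absurd (h1.s e h2) (by omega)

/-- the chain rule -/
theorem pderiv_TT (σ : K →+* K) (M b : κ → K) (y : κ) (P : MvPolynomial κ K) :
    pderiv y (TT σ M b P) = C (M y) * TT σ M b (pderiv y P) := by
  classical
  induction P using MvPolynomial.induction_on with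
  | C a => simp [TT_C]
  | add p q hp hq => simp only [map_add, hp, hq, mul_add]
  | mul_X p z hp =>
    have h1 : pderiv y (TT σ M b (p * X z)) = pderiv y (TT σ M b p) * (C (M z) * (X z - C (b z))) +
        TT σ M b p * (C (M z) * pderiv y (X z)) := by
      rw [map_mul, TT_X, pderiv_mul, pderiv_C_mul, map_sub, pderiv_C, sub_zero]
    have h2 : TT σ M b (pderiv y (p * X z)) = TT σ M b (pderiv y p) * (C (M z) * (X z - C (b z))) +
        TT σ M b p * TT σ M b (pderiv y (X z)) := by
      rw [pderiv_mul, map_add, map_mul, map_mul, TT_X]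
    rw [h1, h2, hp]
    by_cases h : z = y
    · subst h
      rw [pderiv_X_self, map_one]
      ring
    · rw [pderiv_X_of_ne h, map_zero]
      ring

end Pool.Agent.W5h46.HL
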