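import Pool.Agent.W5h46.HL.Deg

/-!
# Algebraic relations between solutions of linear difference equations of first order: linear eigenvectors
-/

set_option autoImplicit false
set_option linter.unusedSectionVars false

open MvPolynomial Finset

namespace Pool.Agent.W5h46.HL

variable {K : Type} [Field K] {κ : Type} [Fintype κ]

theorem dg_eq_zero {e : κ →₀ ℕ} (h : dg e = 0) : e = 0 := by
  ext y
  exact (Finset.sum_eq_zero_iff.1 h) y (Finset.mem_univ y)

theorem dg_single (y : κ) (n : ℕ) : dg (Finsupp.single y n) = n := by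
  classical
  simp only [dg]
  rw [Finset.sum_eq_single y]
  · simp
  · intro z _ hz
    exact Finsupp.single_eq_of_ne hz
  · simp

theorem exists_sub_single {e : κ →₀ ℕ} (h : dg e ≠ 0) : ∃ y, ∃ f : κ →₀ ℕ, e = f + Finsupp.single y 1 := by
  classical
  obtain ⟨y, _, hy⟩ := Finset.exists_ne_zero_of_sum_ne_zero h
  refine ⟨y, e - Finsupp.single y 1, ?_⟩
  rw [tsub_add_cancel_of_le]
  rw [Finsupp.single_le_iff]
  omega

theorem dg_eq_one {e : κ →₀ ℕ} (h : dg e = 1) : ∃ y, e = Finsupp.single y 1 := by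
  obtain ⟨y, f, hf⟩ := exists_sub_single (e := e) (by omega)
  rw [hf, dg_add, dg_single] at h
  refine ⟨y, ?_⟩
  rw [hf, dg_eq_zero (e := f) (by omega), zero_add]

theorem LeD.one_eq {Q : MvPolynomial κ K} (hQ : LeD 1 Q) :
    Q = C (coeff 0 Q) + ∑ y, C (coeff (Finsupp.single y 1) Q) * X y := by
  classical
  ext e
  simp only [coeff_add, coeff_C, coeff_sum, coeff_C_mul, coeff_X]
  by_cases h0 : e = 0
  · subst h0
    rw [if_pos rfl, Finset.sum_eq_zero, add_zero]
    intro y _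
    rw [if_neg, mul_zero]
    intro h
    have := congrArg dg h
    rw [dg_single] at this
    simp [dg] at this
  · rw [if_neg (Ne.symm h0), zero_add]
    by_cases h1 : ∃ y, e = Finsupp.single y 1
    · obtain ⟨y, rfl⟩ := h1
      rw [Finset.sum_eq_single y, if_pos rfl, mul_one]
      · intro z _ hz
        rw [if_neg, mul_zero]
        intro h
        have := Finsupp.single_left_injective (one_ne_zero) h
        exact hz this
      · simp
    · have hz : coeff e Q = 0 := by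
        by_contra h
        have h2 := hQ e h
        have h3 : dg e ≠ 0 := fun h4 => h0 (dg_eq_zero h4)
        exact h1 (dg_eq_one (by omega))
      rw [hz, Finset.sum_eq_zero]
      intro y _
      rw [if_neg, mul_zero]
      intro h
      exact h1 ⟨y, h.symm⟩

/-- the eigenvector of minimal degree in a stable ideal -/
theorem exists_eigen (σ : K →+* K) (M : κ → Kˣ) (b : κ → K) (I : Ideal (MvPolynomial κ K))
    (hC : ∀ a : K, C a ∈ I → a = 0) (hT : ∀ P ∈ I, TT σ (fun y => (M y : K)) b P ∈ I) (hI : ∃ P ∈ I, P ≠ 0) :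
    ∃ (n : ℕ) (P : MvPolynomial κ K) (e0 : κ →₀ ℕ), P ∈ I ∧ LeD n P ∧ 1 ≤ n ∧ dg e0 = n ∧ coeff e0 P = 1 ∧
      TT σ (fun y => (M y : K)) b P = C (((∏ y, M y ^ e0 y : Kˣ)) : K) * P := by
  classical
  have hex : ∃ n, ∃ P ∈ I, P ≠ 0 ∧ LeD n P := by
    obtain ⟨P, hP, hP0⟩ := hI
    exact ⟨P.support.sup dg, P, hP, hP0, fun e he => Finset.le_sup (f := dg) (mem_support_iff.2 he)⟩
  set n := Nat.find hex with hn
  have hmin : ∀ m < n, ∀ P ∈ I, P ≠ 0 → ¬ LeD m P := by
    intro m hm P hP hP0 h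
    exact Nat.find_min hex hm ⟨P, hP, hP0, h⟩
  have htop : ∀ P ∈ I, P ≠ 0 → LeD n P → ∃ e, coeff e P ≠ 0 ∧ dg e = n := by
    intro P hP hP0 hle
    by_contra hcon
    push Not at hcon
    have hlt : ∀ e, coeff e P ≠ 0 → dg e < n := fun e he => lt_of_le_of_ne (hle e he) (hcon e he)
    rcases Nat.eq_zero_or_pos n with h0 | hpos
    · apply hP0
      ext e
      rw [coeff_zero]
      by_contra h
      have := hlt e h
      omega
    · exact hmin (n - 1) (by omega) P hP hP0 fun e he => by have := hlt e he; omega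
  have hex2 : ∃ c, ∃ P ∈ I, P ≠ 0 ∧ LeD n P ∧ (P.support.filter fun e => dg e = n).card = c := by
    obtain ⟨P, hP, hP0, hle⟩ := Nat.find_spec hex
    exact ⟨_, P, hP, hP0, hle, rfl⟩
  obtain ⟨P, hP, hP0, hle, hcard⟩ := Nat.find_spec hex2
  have hmin2 : ∀ Q ∈ I, Q ≠ 0 → LeD n Q → Nat.find hex2 ≤ (Q.support.filter fun e => dg e = n).card := by
    intro Q hQ hQ0 hQle
    exact Nat.find_min' hex2 ⟨Q, hQ, hQ0, hQle, rfl⟩
  obtain ⟨e0, he0, hde0⟩ := htop P hP hP0 hle
  set P1 := C ((coeff e0 P)⁻¹) * P with hP1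
  have hP1I : P1 ∈ I := I.mul_mem_left _ hP
  have hP1c : ∀ e, coeff e P1 = (coeff e0 P)⁻¹ * coeff e P := fun e => by rw [hP1, coeff_C_mul]
  have hP1e : coeff e0 P1 = 1 := by rw [hP1c, inv_mul_cancel₀ he0]
  have hP1le : LeD n P1 := hle.C_mul _
  set μ : Kˣ := ∏ y, M y ^ e0 y with hμ
  set Q := C (((μ⁻¹ : Kˣ)) : K) * TT σ (fun y => (M y : K)) b P1 - P1 with hQ
  have hQI : Q ∈ I := I.sub_mem (I.mul_mem_left _ (hT P1 hP1I)) hP1I
  have hQle : LeD n Q := ((cong_TD σ (fun y => (M y : K)) b hP1le).l.C_mul _).sub hP1le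
  have hQc : ∀ e, dg e = n → coeff e Q = ((μ⁻¹ : Kˣ) : K) * (σ (coeff e P1) * ∏ y, (M y : K) ^ e y) - coeff e P1 := by
    intro e he
    rw [hQ, coeff_sub, coeff_C_mul, coeff_TT σ (fun y => (M y : K)) b hP1le he]
  have hμK : (μ : K) = ∏ y, (M y : K) ^ e0 y := by
    rw [hμ]
    push_cast
    rfl
  have hQ0 : Q = 0 := by
    by_contra hne
    have h1 := hmin2 Q hQI hne hQle
    have h2 : (Q.support.filter fun e => dg e = n) ⊆ (P.support.filter fun e => dg e = n).erase e0 := by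
      intro e he
      obtain ⟨he1, he2⟩ := Finset.mem_filter.1 he
      rw [mem_support_iff, hQc e he2] at he1
      rw [Finset.mem_erase, Finset.mem_filter, mem_support_iff]
      refine ⟨?_, ?_, he2⟩
      · rintro rfl
        apply he1
        rw [hP1e, map_one, one_mul, ← hμK, Units.inv_mul, sub_self]
      · intro h
        apply he1
        rw [hP1c, h]
        simp
    have h3 := Finset.card_le_card h2
    rw [Finset.card_erase_of_mem (Finset.mem_filter.2 ⟨mem_support_iff.2 he0, hde0⟩)] at h3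
    have h4 : 0 < (P.support.filter fun e => dg e = n).card :=
      Finset.card_pos.2 ⟨e0, Finset.mem_filter.2 ⟨mem_support_iff.2 he0, hde0⟩⟩
    omega
  have hTP : TT σ (fun y => (M y : K)) b P1 = C (μ : K) * P1 := by
    have h1 : C (((μ⁻¹ : Kˣ)) : K) * TT σ (fun y => (M y : K)) b P1 = P1 := sub_eq_zero.1 hQ0
    calc TT σ (fun y => (M y : K)) b P1 = C (μ : K) * (C (((μ⁻¹ : Kˣ)) : K) * TT σ (fun y => (M y : K)) b P1) := by
          rw [← mul_assoc, ← C_mul, Units.mul_inv, C_1, one_mul]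
      _ = _ := by rw [h1]
  refine ⟨n, P1, e0, hP1I, hP1le, ?_, hde0, hP1e, hTP⟩
  by_contra hn1
  have hn0 : n = 0 := by omega
  have h1 : P1 = C (coeff 0 P1) := by
    ext e
    rw [coeff_C]
    split_ifs with h
    · rw [← h]
    · by_contra h2
      have h3 := hP1le e h2
      exact h (dg_eq_zero (e := e) (by omega)).symm
  have h2 : coeff 0 P1 = 0 := hC _ (by rw [← h1]; exact hP1I)
  have h3 : e0 = 0 := dg_eq_zero (by omega)
  rw [h3, h2] at hP1e
  exact zero_ne_one hP1e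

/-- a linear eigenvector -/
theorem exists_linear [CharZero K] (σ : K →+* K) (M : κ → Kˣ) (b : κ → K) (I : Ideal (MvPolynomial κ K))
    (hC : ∀ a : K, C a ∈ I → a = 0) (hT : ∀ P ∈ I, TT σ (fun y => (M y : K)) b P ∈ I) (hI : ∃ P ∈ I, P ≠ 0)
    (G : Subgroup Kˣ) (hG : ∀ y, M y ∈ G) :
    ∃ ν ∈ G, ∃ (a : κ → K) (r : K), (∃ y, a y ≠ 0) ∧ (∀ y, (M y : K) * σ (a y) = ν * a y) ∧
      σ r - ∑ y, σ (a y) * ((M y : K) * b y) = ν * r := by
  classical
  set T := TT σ (fun y => (M y : K)) b with hTdef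
  have hex : ∃ m, ∃ Q : MvPolynomial κ K, ∃ ν ∈ G, T Q = C ((ν : Kˣ) : K) * Q ∧ LeD m Q ∧
      ∃ e, 1 ≤ dg e ∧ coeff e Q ≠ 0 := by
    obtain ⟨n, P, e0, _, hPle, hn, he0, hc, hTP⟩ := exists_eigen σ M b I hC hT hI
    refine ⟨n, P, ∏ y, M y ^ e0 y, G.prod_mem fun y _ => G.pow_mem (hG y) _, hTP, hPle, e0, by omega, ?_⟩
    rw [hc]
    exact one_ne_zero
  obtain ⟨Q, ν, hν, hTQ, hQle, e, he1, he⟩ := Nat.find_spec hex
  set m := Nat.find hex with hm
  have hm1 : m = 1 := by
    have h1 : 1 ≤ m := he1.trans (hQle e he)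
    by_contra hne
    have h2 : 2 ≤ m := by omega
    -- there is a monomial of degree `m`
    have h3 : ∃ f, coeff f Q ≠ 0 ∧ dg f = m := by
      by_contra hcon
      push Not at hcon
      refine Nat.find_min hex (m := m - 1) (by omega) ⟨Q, ν, hν, hTQ, fun f hf => ?_, e, he1, he⟩
      have h4 := hQle f hf
      have h5 := hcon f hf
      omega
    obtain ⟨f, hf, hfm⟩ := h3
    obtain ⟨y, g, hg⟩ := exists_sub_single (e := f) (by omega)
    refine Nat.find_min hex (m := m - 1) (by omega) ⟨pderiv y Q, (M y)⁻¹ * ν, G.mul_mem (G.inv_mem (hG y)) hν,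
      ?_, ?_, g, ?_, ?_⟩
    · have h4 := pderiv_TT σ (fun y => (M y : K)) b y Q
      rw [← hTdef, hTQ, pderiv_C_mul] at h4
      calc T (pderiv y Q) = C (((M y)⁻¹ : Kˣ) : K) * (C ((M y : Kˣ) : K) * T (pderiv y Q)) := by
            rw [← mul_assoc, ← C_mul, Units.inv_mul, C_1, one_mul]
        _ = C (((M y)⁻¹ : Kˣ) : K) * (C (ν : K) * pderiv y Q) := by rw [h4]
        _ = _ := by
            rw [← mul_assoc, ← C_mul]
            push_cast
            rfl
    · intro u hu
      rw [coeff_pderiv] at hu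
      have h4 := hQle _ (left_ne_zero_of_mul hu)
      rw [dg_add, dg_single] at h4
      omega
    · rw [hg, dg_add, dg_single] at hfm
      omega
    · rw [coeff_pderiv]
      refine mul_ne_zero ?_ (Nat.cast_add_one_ne_zero _)
      rw [← hg]
      exact hf
  rw [hm1] at hQle
  refine ⟨ν, hν, fun y => coeff (Finsupp.single y 1) Q, coeff 0 Q, ?_, ?_, ?_⟩
  · obtain ⟨y, hy⟩ := dg_eq_one (e := e) (le_antisymm (hQle e he) he1)
    refine ⟨y, ?_⟩
    show coeff (Finsupp.single y 1) Q ≠ 0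
    rw [← hy]
    exact he
  · intro y
    have h1 := coeff_TT σ (fun y => (M y : K)) b hQle (dg_single y 1)
    rw [← hTdef, hTQ, coeff_C_mul] at h1
    rw [h1, mul_comm]
    congr 1
    rw [Finset.prod_eq_single y]
    · simp
    · intro z _ hz
      rw [Finsupp.single_eq_of_ne hz, pow_zero]
    · simp
  · have h1 : coeff 0 (T Q) = ν * coeff 0 Q := by rw [hTQ, coeff_C_mul]
    rw [← h1]
    conv_rhs => rw [hQle.one_eq]
    rw [map_add, map_sum, hTdef, TT_C]
    simp only [map_mul, TT_C, TT_X]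
    rw [coeff_add, coeff_sum]
    have h2 : ∀ y, coeff 0 (C (σ (coeff (Finsupp.single y 1) Q)) * (C ((M y : Kˣ) : K) * (X y - C (b y)))) =
        -(σ (coeff (Finsupp.single y 1) Q) * ((M y : K) * b y)) := by
      intro y
      rw [coeff_C_mul, coeff_C_mul, coeff_sub, coeff_zero_X, coeff_zero_C]
      ring
    simp only [h2]
    rw [coeff_zero_C, Finset.sum_neg_distrib]
    ring

end Pool.Agent.W5h46.HL
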