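import Mathlib

/-!
# Difference equations of first order for rational functions
-/

set_option autoImplicit false

open Polynomial

namespace Pool.Agent.W5h46.HL

/-- the shift of polynomials -/
noncomputable def sh : ℂ[X] →+* ℂ[X] := compRingHom (X + 1)

theorem sh_eval (p : ℂ[X]) (z : ℂ) : (sh p).eval z = p.eval (z + 1) := by
  simp [sh]

theorem sh_X : sh X = X + 1 := by simp [sh]

theorem sh_C (a : ℂ) : sh (C a) = C a := by simp [sh]

theorem sh_injective : Function.Injective sh := by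
  intro p q h
  refine Polynomial.funext fun z => ?_
  have h1 := congrArg (eval (z - 1)) h
  rw [sh_eval, sh_eval, sub_add_cancel] at h1
  exact h1

theorem no_root_up {q : ℂ[X]} (hq : q ≠ 0) (h : ∀ z, q.IsRoot z → q.IsRoot (z + 1)) (z : ℂ) : ¬ q.IsRoot z := by
  intro hz
  have h1 : ∀ m : ℕ, q.IsRoot (z + m) := by
    intro m
    induction m with
    | zero => simpa using hz
    | succ m ih =>
      have := h _ ih
      rw [add_assoc] at this
      exact_mod_cast this
  have h2 : Set.Infinite {z | q.IsRoot z} :=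
    Set.infinite_of_injective_forall_mem (f := fun m : ℕ => z + m) (fun a b hab => by
      have : (a : ℂ) = b := add_left_cancel hab
      exact_mod_cast this) h1
  exact h2 (Polynomial.finite_setOfPred_isRoot hq)

theorem no_root {q : ℂ[X]} (hq : q ≠ 0) (h : ∀ z, q.IsRoot z → z = 0 ∨ q.IsRoot (z + 1))
    (h' : ∀ z, q.IsRoot z → z = 1 ∨ q.IsRoot (z - 1)) (z : ℂ) : ¬ q.IsRoot z := by
  intro hz
  have hfin := Polynomial.finite_setOfPred_isRoot hq
  have h1 : ∃ m : ℕ, z + m = 0 := by
    by_contra hcon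
    push Not at hcon
    have h1 : ∀ m : ℕ, q.IsRoot (z + m) := by
      intro m
      induction m with
      | zero => simpa using hz
      | succ m ih =>
        have := (h _ ih).resolve_left (hcon m)
        rw [add_assoc] at this
        exact_mod_cast this
    exact Set.infinite_of_injective_forall_mem (f := fun m : ℕ => z + m) (fun a b hab => by
      have : (a : ℂ) = b := add_left_cancel hab
      exact_mod_cast this) h1 hfin
  have h2 : ∃ m : ℕ, z - m = 1 := by
    by_contra hcon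
    push Not at hcon
    have h1 : ∀ m : ℕ, q.IsRoot (z - m) := by
      intro m
      induction m with
      | zero => simpa using hz
      | succ m ih =>
        have := (h' _ ih).resolve_left (hcon m)
        rw [sub_sub] at this
        exact_mod_cast this
    exact Set.infinite_of_injective_forall_mem (f := fun m : ℕ => z - m) (fun a b hab => by
      have : (a : ℂ) = b := sub_right_injective hab
      exact_mod_cast this) h1 hfin
  obtain ⟨m, hm⟩ := h1
  obtain ⟨m', hm'⟩ := h2
  have h3 : ((m + m' + 1 : ℕ) : ℂ) = 0 := by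
    push_cast
    linear_combination hm - hm'
  exact Nat.succ_ne_zero (m + m') (by exact_mod_cast h3)

theorem const_of_no_root {q : ℂ[X]} (h : ∀ z, ¬ q.IsRoot z) : ∃ c : ℂ, q = C c := by
  by_contra hcon
  have h1 : q.degree ≠ 0 := fun hd => hcon ⟨_, eq_C_of_degree_eq_zero hd⟩
  obtain ⟨z, hz⟩ := IsAlgClosed.exists_root q h1
  exact h z hz

/-- `p(X+1) q = c p q(X+1)` -/
theorem ratio_const {p q : ℂ[X]} (hp : p ≠ 0) (hq : q ≠ 0) (hpq : IsCoprime p q) {c : ℂ}
    (h : sh p * q = C c * p * sh q) : c = 1 ∧ (∃ a, p = C a) ∧ ∃ b, q = C b := by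
  have hc : c ≠ 0 := by
    rintro rfl
    rw [C_0, zero_mul, zero_mul] at h
    have h1 : sh p ≠ 0 := fun h2 => hp (sh_injective (by rw [h2, map_zero]))
    exact mul_ne_zero h1 hq h
  have hq1 : q ∣ C c * sh q := by
    have h1 : q ∣ p * (C c * sh q) := ⟨sh p, by rw [mul_comm q]; rw [h]; ring⟩
    exact hpq.symm.dvd_of_dvd_mul_left h1
  have hp1 : p ∣ sh p := by
    have h1 : p ∣ q * sh p := ⟨C c * sh q, by rw [mul_comm q, h]; ring⟩
    exact hpq.dvd_of_dvd_mul_left h1
  have hpc : ∃ a, p = C a := by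
    refine const_of_no_root (no_root_up hp fun z hz => ?_)
    obtain ⟨u, hu⟩ := hp1
    have h2 := congrArg (eval z) hu
    rw [sh_eval, eval_mul, hz.eq_zero, zero_mul] at h2
    exact h2
  have hqc : ∃ b, q = C b := by
    refine const_of_no_root (no_root_up hq fun z hz => ?_)
    obtain ⟨u, hu⟩ := hq1
    have h2 := congrArg (eval z) hu
    rw [eval_mul, eval_C, sh_eval, eval_mul, hz.eq_zero, zero_mul] at h2
    exact (mul_eq_zero.1 h2).resolve_left hc
  refine ⟨?_, hpc, hqc⟩
  obtain ⟨a, rfl⟩ := hpc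
  obtain ⟨b, rfl⟩ := hqc
  rw [sh_C, sh_C, ← C_mul, ← C_mul, ← C_mul] at h
  have h1 := C_injective h
  have ha : a ≠ 0 := fun h2 => hp (by rw [h2, C_0])
  have hb : b ≠ 0 := fun h2 => hq (by rw [h2, C_0])
  have h2 : (c - 1) * (a * b) = 0 := by linear_combination -h1
  exact sub_eq_zero.1 ((mul_eq_zero.1 h2).resolve_right (mul_ne_zero ha hb))

/-- `X^w (p(X+1) q - ν p q(X+1)) = ν B q q(X+1)`, `deg B < w` -/
theorem no_solution {p q B : ℂ[X]} (hq : q ≠ 0) (hpq : IsCoprime p q) {ν : ℂ} (hν : ν ≠ 0) {w : ℕ}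
    (hB : B.degree < w) (h : X ^ w * (sh p * q - C ν * p * sh q) = C ν * B * q * sh q) : B = 0 := by
  have hpq1 : IsCoprime (sh p) (sh q) := hpq.map sh
  have hsq : sh q ≠ 0 := fun h2 => hq (sh_injective (by rw [h2, map_zero]))
  have h1 : q ∣ C ν * X ^ w * sh q := by
    have h2 : q ∣ p * (C ν * X ^ w * sh q) := ⟨X ^ w * sh p - C ν * B * sh q, by linear_combination -h⟩
    exact hpq.symm.dvd_of_dvd_mul_left h2
  have h2 : sh q ∣ X ^ w * q := by
    have h2 : sh q ∣ sh p * (X ^ w * q) := ⟨C ν * B * q + X ^ w * (C ν * p), by linear_combination h⟩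
    exact hpq1.symm.dvd_of_dvd_mul_left h2
  obtain ⟨c, hc⟩ : ∃ c, q = C c := by
    refine const_of_no_root (no_root hq (fun z hz => ?_) fun z hz => ?_)
    · obtain ⟨u, hu⟩ := h1
      have h3 := congrArg (eval z) hu
      rw [eval_mul, eval_mul, eval_C, eval_pow, eval_X, sh_eval, eval_mul, hz.eq_zero, zero_mul] at h3
      rcases mul_eq_zero.1 h3 with h4 | h4
      · left
        by_contra hz0
        exact mul_ne_zero hν (pow_ne_zero _ hz0) h4
      · exact Or.inr h4
    · obtain ⟨u, hu⟩ := h2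
      have h3 := congrArg (eval (z - 1)) hu
      rw [eval_mul, eval_pow, eval_X, eval_mul, sh_eval, sub_add_cancel, hz.eq_zero, zero_mul] at h3
      rcases mul_eq_zero.1 h3 with h4 | h4
      · left
        by_contra hz0
        exact pow_ne_zero _ (sub_ne_zero.2 hz0) h4
      · exact Or.inr h4
  subst hc
  have hc0 : c ≠ 0 := fun h2 => hq (by rw [h2, C_0])
  rw [sh_C] at h
  have h3 : X ^ w * ((sh p - C ν * p) * C (ν⁻¹ * c⁻¹)) = B := by
    have h4 : C (c * c) * (X ^ w * ((sh p - C ν * p) * C (ν⁻¹ * c⁻¹))) = C (c * c) * B := by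
      have h5 : C ν * C ν⁻¹ = (1 : ℂ[X]) := by rw [← C_mul, mul_inv_cancel₀ hν, C_1]
      have h6 : C c * C c⁻¹ = (1 : ℂ[X]) := by rw [← C_mul, mul_inv_cancel₀ hc0, C_1]
      rw [C_mul, C_mul]
      linear_combination C ν⁻¹ * C c⁻¹ * C c * h + (C c * C c * B) * (C c * C c⁻¹) * h5 + C c * C c * B * h6
    have h7 : (C (c * c) : ℂ[X]) ≠ 0 := C_ne_zero.2 (mul_ne_zero hc0 hc0)
    exact mul_left_cancel₀ h7 h4
  by_contra hB0
  have h4 : (X ^ w : ℂ[X]) ∣ B := ⟨_, h3.symm⟩
  have h5 := degree_le_of_dvd h4 hB0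
  rw [degree_X_pow] at h5
  exact absurd hB (not_lt.2 h5)

end Pool.Agent.W5h46.HL
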