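import Pool.Agent.W5h46.HL.Eig
import Pool.Agent.W5h46.HL.Rat

/-!
# Functions `F(x + 1) = λ⁻¹ (F(x) - c x^(-k))` are algebraically independent
-/

set_option autoImplicit false

open Filter Topology

namespace Pool.Agent.W5h46.HL

/-- the field of rational functions -/
abbrev KK := FractionRing (Polynomial ℂ)

/-- germs of functions at infinity -/
abbrev GG := Germ (atTop : Filter ℝ) ℂ

/-- the shift on rational functions -/
noncomputable def sg : KK →+* KK :=
  IsFractionRing.lift (g := (algebraMap (Polynomial ℂ) KK).comp sh)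
    ((IsFractionRing.injective (Polynomial ℂ) KK).comp sh_injective)

theorem sg_alg (p : Polynomial ℂ) : sg (algebraMap (Polynomial ℂ) KK p) = algebraMap (Polynomial ℂ) KK (sh p) := by
  rw [sg, IsFractionRing.lift_algebraMap]
  rfl

/-- the germ of a polynomial -/
noncomputable def gl : Polynomial ℂ →+* GG :=
  (Germ.coeRingHom (atTop : Filter ℝ)).comp (RingHom.pi fun x : ℝ => Polynomial.evalRingHom (x : ℂ))

theorem gl_apply (p : Polynomial ℂ) : gl p = ((fun x : ℝ => p.eval (x : ℂ)) : ℝ → ℂ) := rfl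

theorem gl_unit (y : nonZeroDivisors (Polynomial ℂ)) : IsUnit (gl (y : Polynomial ℂ)) := by
  have hy : (y : Polynomial ℂ) ≠ 0 := nonZeroDivisors.ne_zero y.2
  have hev : ∀ᶠ x : ℝ in atTop, (y : Polynomial ℂ).eval (x : ℂ) ≠ 0 := by
    have hfin : {x : ℝ | (y : Polynomial ℂ).eval (x : ℂ) = 0}.Finite := by
      have h1 := Polynomial.finite_setOfPred_isRoot hy
      exact (h1.preimage Complex.ofReal_injective.injOn)
    obtain ⟨B, hB⟩ := hfin.bddAbove
    filter_upwards [eventually_gt_atTop B] with x hx h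
    exact absurd (hB h) (not_le.2 hx)
  refine IsUnit.of_mul_eq_one (((fun x : ℝ => ((y : Polynomial ℂ).eval (x : ℂ))⁻¹) : ℝ → ℂ) : GG) ?_
  rw [gl_apply, ← Germ.coe_mul, ← Germ.coe_one]
  refine Germ.coe_eq.2 ?_
  filter_upwards [hev] with x hx
  simp [hx]

/-- rational functions as germs -/
noncomputable def ig : KK →+* GG := IsLocalization.lift (M := nonZeroDivisors (Polynomial ℂ)) gl_unit

theorem ig_alg (p : Polynomial ℂ) : ig (algebraMap (Polynomial ℂ) KK p) = gl p :=
  IsLocalization.lift_eq _ _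

theorem tendsto_add_one : Tendsto (fun x : ℝ => x + 1) atTop atTop := tendsto_atTop_add_const_right _ _ tendsto_id

/-- the shift of germs -/
noncomputable def tg : GG →+* GG where
  toFun f := f.compTendsto (fun x : ℝ => x + 1) tendsto_add_one
  map_one' := rfl
  map_zero' := rfl
  map_mul' f g := Germ.inductionOn₂ f g fun _ _ => rfl
  map_add' f g := Germ.inductionOn₂ f g fun _ _ => rfl

theorem tg_coe (f : ℝ → ℂ) : tg (f : GG) = ((fun x => f (x + 1) : ℝ → ℂ) : GG) := rfl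

theorem tg_ig (a : KK) : tg (ig a) = ig (sg a) := by
  have h : tg.comp ig = ig.comp sg := by
    refine IsLocalization.ringHom_ext (nonZeroDivisors (Polynomial ℂ)) ?_
    refine RingHom.ext fun p => ?_
    simp only [RingHom.comp_apply]
    rw [ig_alg, sg_alg, ig_alg, gl_apply, gl_apply, tg_coe]
    congr 1
    funext x
    rw [sh_eval]
    push_cast
    rfl
  exact congrArg (fun f : KK →+* GG => f a) h

/-- constants -/
noncomputable def cst : ℂ →+* KK := (algebraMap (Polynomial ℂ) KK).comp Polynomial.C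

theorem ig_cst (c : ℂ) : ig (cst c) = ((fun _ : ℝ => c : ℝ → ℂ) : GG) := by
  rw [cst, RingHom.comp_apply, ig_alg, gl_apply]
  congr 1
  funext x
  simp

theorem sg_cst (c : ℂ) : sg (cst c) = cst c := by
  rw [cst, RingHom.comp_apply, sg_alg, sh_C]

/-- the variable -/
noncomputable def xx : KK := algebraMap (Polynomial ℂ) KK Polynomial.X

theorem xx_ne : xx ≠ 0 := by
  have := (IsFractionRing.injective (Polynomial ℂ) KK).ne (Polynomial.X_ne_zero (R := ℂ))
  rwa [map_zero] at this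

theorem ig_xx_inv (k : ℕ) : ig (xx⁻¹ ^ k) = ((fun x : ℝ => ((x : ℂ) ^ k)⁻¹ : ℝ → ℂ) : GG) := by
  have h1 : ig (xx ^ k) * ig (xx⁻¹ ^ k) = 1 := by
    rw [← map_mul, ← mul_pow, mul_inv_cancel₀ xx_ne, one_pow, map_one]
  have h2 : ig (xx ^ k) * ((fun x : ℝ => ((x : ℂ) ^ k)⁻¹ : ℝ → ℂ) : GG) = 1 := by
    rw [xx, ← map_pow, ig_alg, gl_apply, ← Germ.coe_mul, ← Germ.coe_one]
    refine Germ.coe_eq.2 ?_
    filter_upwards [eventually_gt_atTop (0 : ℝ)] with x hx
    have : (x : ℂ) ≠ 0 := by exact_mod_cast hx.ne'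
    simp [this]
  have h3 : ig (xx⁻¹ ^ k) * ig (xx ^ k) = 1 := by rw [mul_comm, h1]
  calc ig (xx⁻¹ ^ k) = ig (xx⁻¹ ^ k) * (ig (xx ^ k) * ((fun x : ℝ => ((x : ℂ) ^ k)⁻¹ : ℝ → ℂ) : GG)) := by
        rw [h2, mul_one]
    _ = _ := by rw [← mul_assoc, h3, one_mul]

/-- reduced fractions -/
theorem exists_frac (a : KK) : ∃ p q : Polynomial ℂ, q ≠ 0 ∧ IsCoprime p q ∧
    a * algebraMap (Polynomial ℂ) KK q = algebraMap (Polynomial ℂ) KK p := by
  obtain ⟨p, q, hpq, h⟩ := IsFractionRing.exists_reduced_fraction (A := Polynomial ℂ) a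
  refine ⟨p, q, nonZeroDivisors.ne_zero q.2, hpq.isCoprime, ?_⟩
  rw [← h]
  exact IsLocalization.mk'_spec _ _ _

theorem frac_ratio {a : KK} (ha : a ≠ 0) {c : ℂ} (h : sg a = cst c * a) : c = 1 ∧ ∃ α : ℂ, a = cst α := by
  obtain ⟨p, q, hq, hpq, hpa⟩ := exists_frac a
  have hinj := IsFractionRing.injective (Polynomial ℂ) KK
  have hq' : algebraMap (Polynomial ℂ) KK q ≠ 0 := by
    intro h0
    exact hq (hinj (by rw [h0, map_zero]))
  have hp : p ≠ 0 := by
    intro h0
    rw [h0, map_zero] at hpa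
    exact mul_ne_zero ha hq' hpa
  have h1 := congrArg sg hpa
  rw [map_mul, sg_alg, sg_alg, h] at h1
  have h2 : sh p * q = Polynomial.C c * p * sh q := by
    apply hinj
    rw [map_mul, map_mul, map_mul, ← h1, ← hpa]
    change _ = cst c * _ * _
    ring
  obtain ⟨hc, ⟨α, rfl⟩, ⟨β, rfl⟩⟩ := ratio_const hp hq hpq h2
  refine ⟨hc, α * β⁻¹, ?_⟩
  have hβ : β ≠ 0 := fun h0 => hq (by rw [h0, Polynomial.C_0])
  have h3 : a * cst β = cst α := hpa
  have h4 : cst β ≠ 0 := hq'
  rw [map_mul, ← h3, mul_assoc, ← map_mul, mul_inv_cancel₀ hβ, map_one, mul_one]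

theorem frac_no_solution {w : ℕ} {r : KK} {ν : ℂ} (hν : ν ≠ 0) (α : Fin w → ℂ)
    (h : sg r - cst ν * r = cst ν * ∑ k, cst (α k) * xx⁻¹ ^ ((k : ℕ) + 1)) : ∀ k, α k = 0 := by
  obtain ⟨p, q, hq, hpq, hpr⟩ := exists_frac r
  have hinj := IsFractionRing.injective (Polynomial ℂ) KK
  set B : Polynomial ℂ := ∑ k : Fin w, Polynomial.C (α k) * Polynomial.X ^ (w - 1 - (k : ℕ)) with hB
  have h1 := congrArg sg hpr
  rw [map_mul, sg_alg, sg_alg] at h1
  have hBx : xx ^ w * ∑ k, cst (α k) * xx⁻¹ ^ ((k : ℕ) + 1) = algebraMap (Polynomial ℂ) KK B := by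
    rw [hB, map_sum, Finset.mul_sum]
    refine Finset.sum_congr rfl fun k _ => ?_
    rw [map_mul, map_pow]
    change _ = cst (α k) * xx ^ (w - 1 - (k : ℕ))
    have h2 : xx ^ w = xx ^ (w - 1 - (k : ℕ)) * xx ^ ((k : ℕ) + 1) := by
      rw [← pow_add]
      congr 1
      have := k.2
      omega
    rw [h2]
    have h3 : xx ^ ((k : ℕ) + 1) * xx⁻¹ ^ ((k : ℕ) + 1) = 1 := by
      rw [← mul_pow, mul_inv_cancel₀ xx_ne, one_pow]
    calc _ = cst (α k) * xx ^ (w - 1 - (k : ℕ)) * (xx ^ ((k : ℕ) + 1) * xx⁻¹ ^ ((k : ℕ) + 1)) := by ring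
      _ = _ := by rw [h3, mul_one]
  have hdeg : B.degree < w := by
    rcases Nat.eq_zero_or_pos w with h0 | hpos
    · subst h0
      rw [hB]
      simp
    · refine lt_of_le_of_lt (Polynomial.degree_sum_le _ _) ?_
      rw [Finset.sup_lt_iff (by exact_mod_cast WithBot.bot_lt_coe w)]
      intro k _
      refine lt_of_le_of_lt (Polynomial.degree_C_mul_X_pow_le _ _) ?_
      have := k.2
      exact_mod_cast (by omega : w - 1 - (k : ℕ) < w)
  have hmain : Polynomial.X ^ w * (sh p * q - Polynomial.C ν * p * sh q) = Polynomial.C ν * B * q * sh q := by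
    apply hinj
    simp only [map_mul, map_sub, map_pow]
    change xx ^ w * (_ - cst ν * _ * _) = cst ν * _ * _ * _
    rw [← hBx, ← hpr, ← h1]
    linear_combination (xx ^ w * algebraMap (Polynomial ℂ) KK q * algebraMap (Polynomial ℂ) KK (sh q)) * h
  have hB0 := no_solution hq hpq hν hdeg hmain
  intro k
  have h2 := congrArg (fun r => Polynomial.coeff r (w - 1 - (k : ℕ))) hB0
  simp only [hB, Polynomial.finsetSum_coeff, Polynomial.coeff_C_mul, Polynomial.coeff_X_pow, Polynomial.coeff_zero] at h2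
  rw [Finset.sum_eq_single k, if_pos rfl, mul_one] at h2
  · exact h2
  · intro j _ hj
    rw [if_neg, mul_zero]
    intro h3
    apply hj
    have h4 := j.2
    have h5 := k.2
    exact Fin.ext (by omega)
  · simp

end Pool.Agent.W5h46.HL
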