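import Pool.Agent.W5h46.HL.Fun
import Pool.Agent.Y771.RP.Rel

/-!
# Local independence of the Lerch and Hurwitz zeta values
-/

set_option autoImplicit false

open MeasureTheory Set Filter Topology MvPolynomial

namespace Pool.Agent.W5h46.HL

open Pool.Agent.W5h46.MT

/-- the functions: `none`, `k`: digamma and Hurwitz zeta; `some i`, `k`: Lerch -/
noncomputable def ff {r w : ℕ} (c : Fin r → ℂ) (y : Option (Fin r) × Fin w) (x : ℂ) : ℂ :=
  match y.1 with
  | none => if (y.2 : ℕ) = 0 then dgm x else hz y.2 x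
  | some i => mellin (lf y.2 (fc (c i))) x

/-- the coefficients in the difference equations -/
noncomputable def cf {r w : ℕ} (y : Option (Fin r) × Fin w) : ℂ :=
  match y.1 with
  | none => if (y.2 : ℕ) = 0 then -1 else 1
  | some _ => (-1) ^ (y.2 : ℕ) * (y.2 : ℕ).factorial

theorem cf_ne {r w : ℕ} (y : Option (Fin r) × Fin w) : cf y ≠ 0 := by
  rcases y with ⟨_ | i, k⟩
  · simp only [cf]
    split_ifs <;> norm_num
  · simp only [cf]
    exact mul_ne_zero (pow_ne_zero _ (by norm_num)) (by exact_mod_cast (k : ℕ).factorial_ne_zero)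

theorem ff_an {r w : ℕ} (c : Fin r → ℂ) (hc : ∀ i, ∀ t : ℝ, t ∈ Icc (0 : ℝ) 1 → 1 - c i * t ≠ 0)
    (y : Option (Fin r) × Fin w) {x : ℂ} (hx : 0 < x.re) : AnalyticAt ℂ (ff c y) x := by
  rcases y with ⟨_ | i, k⟩
  · by_cases hk : (k : ℕ) = 0
    · have : ff c (none, k) = dgm := by
        funext z
        simp [ff, hk]
      rw [this]
      exact dgm_an hx
    · have : ff c (none, k) = hz k := by
        funext z
        simp [ff, hk]
      rw [this]
      exact hz_an (Nat.one_le_iff_ne_zero.2 hk) hx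
  · exact fc_an (hc i) k hx

theorem ff_diff {r w : ℕ} (c : Fin r → ℂ) (hc : ∀ i, ∀ t : ℝ, t ∈ Icc (0 : ℝ) 1 → 1 - c i * t ≠ 0)
    (y : Option (Fin r) × Fin w) {x : ℂ} (hx : 0 < x.re) :
    (y.1.elim 1 c) * ff c y (x + 1) = ff c y x - cf y * (x ^ ((y.2 : ℕ) + 1))⁻¹ := by
  rcases y with ⟨_ | i, k⟩
  · by_cases hk : (k : ℕ) = 0
    · simp only [ff, cf, hk, if_true, Option.elim_none, one_mul]
      exact dgm_diff hx
    · simp only [ff, cf, hk, if_false, Option.elim_none, one_mul]
      have := hz_diff (Nat.one_le_iff_ne_zero.2 hk) hx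
      rw [one_mul] at this
      exact this
  · exact fc_diff (hc i) k hx

theorem ff_locInd {r w : ℕ} (c : Fin r → ℂ) (hc : ∀ i, ∀ t : ℝ, t ∈ Icc (0 : ℝ) 1 → 1 - c i * t ≠ 0)
    (hinj : Function.Injective c) (hne : ∀ i, c i ≠ 0) :
    ∀ x : ℂ, 0 < x.re → Y124.LocInd (fun y : Option (Fin r) × Fin w => ff c y) x := by
  refine fun x hx => Y771.RP.locInd_of (fun y : Option (Fin r) × Fin w => ff c y) {z : ℂ | 0 < z.re}
    (convex_halfSpace_re_gt 0).isPreconnected (fun y t ht => ff_an c hc y ht) (fun P hP => ?_) x hx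
  have hc1 : ∀ i, c i ≠ 1 := by
    intro i h
    have := hc i 1 ⟨by norm_num, le_refl _⟩
    rw [h] at this
    simp at this
  refine indep w (fun i : Option (Fin r) => i.elim 1 c) ?_ ?_ cf cf_ne (fun y x => ff c y (x : ℂ)) ?_ P ?_
  · intro i j hij
    rcases i with _ | i <;> rcases j with _ | j
    · rfl
    · exact absurd hij.symm (hc1 j)
    · exact absurd hij (hc1 i)
    · exact congrArg some (hinj hij)
  · intro i
    rcases i with _ | i
    · exact one_ne_zero
    · exact hne i
  · intro y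
    filter_upwards [eventually_gt_atTop (0 : ℝ)] with x hx
    have := ff_diff c hc y (x := (x : ℂ)) (by simpa using hx)
    push_cast
    exact this
  · filter_upwards [eventually_gt_atTop (0 : ℝ)] with x hx
    exact hP (x : ℂ) (by simpa using hx)

end Pool.Agent.W5h46.HL
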