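import Pool.Agent.W5h46.HL.Ger

/-!
# Functions `F(x + 1) = λ⁻¹ (F(x) - c x^(-k))` are algebraically independent
-/

set_option autoImplicit false

open Filter Topology MvPolynomial

namespace Pool.Agent.W5h46.HL

theorem cst_injective : Function.Injective cst := RingHom.injective cst

/-- The functions `F_(i,k)`, `λ_i F_(i,k)(x + 1) = F_(i,k)(x) - c_(i,k) x^(-k-1)`, with different `λ_i ≠ 0` and `c_(i,k) ≠ 0`,
are algebraically independent over the rational functions. -/
theorem indep {ι : Type} [Fintype ι] (w : ℕ) (lam : ι → ℂ) (hinj : Function.Injective lam) (hne : ∀ i, lam i ≠ 0)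
    (c : ι × Fin w → ℂ) (hc : ∀ y, c y ≠ 0) (F : ι × Fin w → ℝ → ℂ)
    (hF : ∀ y, ∀ᶠ x : ℝ in atTop, lam y.1 * F y (x + 1) = F y x - c y * ((x : ℂ) ^ ((y.2 : ℕ) + 1))⁻¹)
    (P : MvPolynomial (Option (ι × Fin w)) ℂ)
    (hP : ∀ᶠ x : ℝ in atTop, eval (fun o : Option (ι × Fin w) => o.elim (x : ℂ) fun y => F y x) P = 0) : P = 0 := by
  classical
  let M : ι × Fin w → KKˣ := fun y => Units.map (cst : ℂ →* KK) (Units.mk0 (lam y.1)⁻¹ (inv_ne_zero (hne y.1)))
  have hM : ∀ y, (M y : KK) = cst (lam y.1)⁻¹ := fun y => rfl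
  let b : ι × Fin w → KK := fun y => cst (c y) * xx⁻¹ ^ ((y.2 : ℕ) + 1)
  let Fg : ι × Fin w → GG := fun y => (F y : GG)
  let φ : MvPolynomial (ι × Fin w) KK →+* GG := eval₂Hom ig Fg
  -- the equations for the germs
  have hFg : ∀ y, tg (Fg y) = ig (M y) * (Fg y - ig (b y)) := by
    intro y
    simp only [Fg, b]
    rw [tg_coe, hM, ig_cst, map_mul, ig_cst, ig_xx_inv, ← Germ.coe_mul, ← Germ.coe_sub, ← Germ.coe_mul]
    refine Germ.coe_eq.2 ?_
    filter_upwards [hF y] with x hx
    simp only [Pi.mul_apply, Pi.sub_apply]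
    rw [← hx, ← mul_assoc, inv_mul_cancel₀ (hne y.1), one_mul]
  have hφT : ∀ Q, φ (TT sg (fun y => (M y : KK)) b Q) = tg (φ Q) := by
    intro Q
    have h : φ.comp (TT sg (fun y => (M y : KK)) b) = tg.comp φ := by
      refine MvPolynomial.ringHom_ext (fun a => ?_) fun y => ?_
      · simp only [RingHom.comp_apply, TT_C, φ, coe_eval₂Hom, eval₂_C]
        exact (tg_ig a).symm
      · simp only [RingHom.comp_apply, TT_X]
        rw [map_mul, map_sub]
        simp only [φ, coe_eval₂Hom, eval₂_C, eval₂_X]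
        exact (hFg y).symm
    exact congrArg (fun f : MvPolynomial (ι × Fin w) KK →+* GG => f Q) h
  by_contra hP0
  -- the polynomial over the field of rational functions
  let Q : MvPolynomial (ι × Fin w) KK := map (algebraMap (Polynomial ℂ) KK) (optionEquivRight ℂ (ι × Fin w) P)
  have hQ0 : Q ≠ 0 := by
    intro h
    have h1 : optionEquivRight ℂ (ι × Fin w) P = 0 :=
      map_injective _ (IsFractionRing.injective (Polynomial ℂ) KK) (by rw [map_zero]; exact h)
    exact hP0 ((optionEquivRight ℂ (ι × Fin w)).injective (by rw [h1, map_zero]))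
  have hQφ : φ Q = ((fun x : ℝ => eval (fun o : Option (ι × Fin w) => o.elim (x : ℂ) fun y => F y x) P : ℝ → ℂ) : GG) := by
    let ev : MvPolynomial (Option (ι × Fin w)) ℂ →+* GG := (Germ.coeRingHom (atTop : Filter ℝ)).comp
      (RingHom.pi fun x : ℝ => eval (fun o : Option (ι × Fin w) => o.elim (x : ℂ) fun y => F y x))
    let th : MvPolynomial (Option (ι × Fin w)) ℂ →+* GG := (φ.comp (map (algebraMap (Polynomial ℂ) KK))).comp
      (optionEquivRight ℂ (ι × Fin w)).toRingEquiv.toRingHom
    have h : th = ev := by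
      refine MvPolynomial.ringHom_ext (fun a => ?_) fun o => ?_
      · have h1 : th (C a) = ig (cst a) := by
          simp only [th, RingHom.comp_apply]
          change φ (map _ (optionEquivRight ℂ (ι × Fin w) (C a))) = _
          rw [optionEquivRight_C, map_C]
          simp only [φ, coe_eval₂Hom, eval₂_C]
          rfl
        have h2 : ev (C a) = ((fun _ : ℝ => a : ℝ → ℂ) : GG) := by
          simp only [ev, RingHom.comp_apply]
          change (((fun x : ℝ => eval (fun o : Option (ι × Fin w) => o.elim (x : ℂ) fun y => F y x) (C a)) : ℝ → ℂ) : GG) = _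
          simp only [eval_C]
        rw [h1, h2, ig_cst]
      · have h2 : ev (X o) = ((fun x : ℝ => (o.elim (x : ℂ) fun y => F y x) : ℝ → ℂ) : GG) := by
          simp only [ev, RingHom.comp_apply]
          change (((fun x : ℝ => eval (fun o : Option (ι × Fin w) => o.elim (x : ℂ) fun y => F y x) (X o)) : ℝ → ℂ) : GG) = _
          simp only [eval_X]
        rw [h2]
        simp only [th, RingHom.comp_apply]
        change φ (map _ (optionEquivRight ℂ (ι × Fin w) (X o))) = _
        cases o with
        | none =>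
          rw [optionEquivRight_X_none, map_C]
          simp only [φ, coe_eval₂Hom, eval₂_C]
          rw [ig_alg, gl_apply]
          simp only [Polynomial.eval_X, Option.elim_none]
        | some y =>
          rw [optionEquivRight_X_some, map_X]
          simp only [φ, coe_eval₂Hom, eval₂_X]
          rfl
    exact congrArg (fun f : MvPolynomial (Option (ι × Fin w)) ℂ →+* GG => f P) h
  have hQker : φ Q = 0 := by
    rw [hQφ, ← Germ.coe_zero]
    refine Germ.coe_eq.2 ?_
    filter_upwards [hP] with x hx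
    exact hx
  obtain ⟨ν', hν', a, r, ⟨y0, hy0⟩, ha, hr⟩ := exists_linear sg M b (RingHom.ker φ)
    (fun a ha => by
      rw [RingHom.mem_ker] at ha
      simp only [φ, coe_eval₂Hom, eval₂_C] at ha
      exact (RingHom.injective ig) (by rw [ha, map_zero]))
    (fun R hR => by
      rw [RingHom.mem_ker] at hR ⊢
      rw [hφT, hR, map_zero])
    ⟨Q, hQker, hQ0⟩ (Units.map (cst : ℂ →* KK)).range (fun y => ⟨_, rfl⟩)
  obtain ⟨ν, rfl⟩ := hν'
  have hν0 : (ν : ℂ) ≠ 0 := ν.ne_zero
  have hνK : ((Units.map (cst : ℂ →* KK) ν : KKˣ) : KK) = cst (ν : ℂ) := rfl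
  rw [hνK] at hr
  simp only [hνK, hM] at ha hr
  -- every nonzero `a y` is constant, and `ν = (lam y.1)⁻¹`
  have hay : ∀ y, a y ≠ 0 → (ν : ℂ) = (lam y.1)⁻¹ ∧ ∃ α, a y = cst α := by
    intro y hy
    have h1 : sg (a y) = cst (lam y.1 * ν) * a y := by
      have h2 := ha y
      have h3 : cst (lam y.1) * cst (lam y.1)⁻¹ = 1 := by rw [← map_mul, mul_inv_cancel₀ (hne _), map_one]
      calc sg (a y) = cst (lam y.1) * cst (lam y.1)⁻¹ * sg (a y) := by rw [h3, one_mul]
        _ = cst (lam y.1) * (cst ν * a y) := by rw [← h2]; ring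
        _ = _ := by rw [map_mul]; ring
    obtain ⟨h2, h3⟩ := frac_ratio hy h1
    exact ⟨(eq_inv_of_mul_eq_one_right h2), h3⟩
  have hone : ∀ y, a y ≠ 0 → y.1 = y0.1 := by
    intro y hy
    have h1 := (hay y hy).1
    rw [(hay y0 hy0).1] at h1
    exact hinj (inv_injective h1.symm)
  have hex : ∀ y, ∃ α, a y = cst α := by
    intro y
    by_cases h : a y = 0
    · exact ⟨0, by rw [h, map_zero]⟩
    · exact (hay y h).2
  choose α hα using hex
  have hν1 := (hay y0 hy0).1
  have hsum : ∑ y, sg (a y) * (cst (lam y.1)⁻¹ * b y) =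
      cst ν * ∑ k : Fin w, cst (α (y0.1, k) * c (y0.1, k)) * xx⁻¹ ^ ((k : ℕ) + 1) := by
    rw [Fintype.sum_prod_type, Finset.sum_eq_single y0.1]
    · rw [Finset.mul_sum]
      refine Finset.sum_congr rfl fun k _ => ?_
      simp only [b]
      rw [hα, sg_cst, hν1, map_mul]
      ring
    · intro i _ hi
      refine Finset.sum_eq_zero fun k _ => ?_
      have : a (i, k) = 0 := by
        by_contra h
        exact hi (hone _ h)
      rw [this, map_zero, zero_mul]
    · intro h
      exact absurd (Finset.mem_univ _) h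
  rw [hsum] at hr
  have h1 := frac_no_solution hν0 (fun k => α (y0.1, k) * c (y0.1, k)) (r := r) (by linear_combination hr) y0.2
  have h2 : α y0 = 0 := (mul_eq_zero.1 h1).resolve_right (hc _)
  exact hy0 (by rw [hα, h2, map_zero])

end Pool.Agent.W5h46.HL
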